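import Pool.Agent.TH943.SP.Open

/-!
Counting points of `D(x_0) f(x_r) ∏ (x_i - h_i(x_(i-1))) ≠ 0`.
-/

set_option autoImplicit false
set_option maxHeartbeats 1000000

open Polynomial

namespace Pool.Agent.TH943.SP

open Pool.Agent.W528.HS Pool.Agent.W528.HA Pool.Agent.TH117.HS Pool.Agent.TH943.IP

section count

variable {κ : Type} [Field κ] [Fintype κ] (L : Type) [Field L] [Fintype L] [Algebra κ L]

omit [Fintype κ] in
theorem total_D (r : ℕ) (h : Fin r → κ[X]) (f D : κ[X])
    (hD : ∀ x : L, delta L D x * delta L (cmp r h f) x = 0) :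
    ∑ x : Fin (r + 1) → L, (1 - delta L D (x 0)) * ind L h f x =
      ((Fintype.card L : ℤ) * cc L r h f +
        (-1) ^ (r + 1) * ∑ x : L, delta L (cmp r h f) x) -
      (∑ x : L, delta L D x) * cc L r h f := by
  rw [← total_eq]
  have h1 : ∑ x : Fin (r + 1) → L, delta L D (x 0) * ind L h f x =
      (∑ x : L, delta L D x) * cc L r h f := by
    rw [← (Fin.consEquiv (fun _ : Fin (r + 1) => L)).sum_comp, Fintype.sum_prod_type,
      Finset.sum_mul]
    refine Finset.sum_congr rfl fun x _ => ?_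
    have h2 : ∀ y : Fin r → L, delta L D (((Fin.consEquiv fun _ : Fin (r + 1) => L) (x, y)) 0) *
        ind L h f ((Fin.consEquiv fun _ => L) (x, y)) =
        delta L D x * ind L h f (Fin.cons x y) := fun y => rfl
    simp only [h2]
    rw [← Finset.mul_sum]
    have h3 : ∑ y : Fin r → L, ind L h f (Fin.cons x y) = cnt L r h f x := rfl
    rw [h3, cnt_eq, mul_add]
    have h4 := hD x
    linear_combination (-1) ^ (r + 1) * h4
  rw [← h1, ← Finset.sum_sub_distrib]
  refine Finset.sum_congr rfl fun x _ => ?_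
  ring

omit [Fintype κ] in
theorem delta_const {c : κ} (hc : c ≠ 0) (x : L) : delta L (C c) x = 0 := by
  unfold delta
  rw [if_neg]
  rw [aeval_C]
  exact (map_ne_zero_iff _ (algebraMap κ L).injective).2 hc

omit [Fintype κ] in
theorem delta_mul {D g : κ[X]} (hD : Irreducible D) (hg : Irreducible g)
    (hne : D.natDegree ≠ g.natDegree) (x : L) : delta L D x * delta L g x = 0 := by
  unfold delta
  by_cases h1 : aeval x D = 0
  · by_cases h2 : aeval x g = 0
    · exfalso
      by_cases hint : IsIntegral κ x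
      · have e1 : Associated (minpoly κ x) D :=
          (minpoly.irreducible hint).associated_of_dvd hD (minpoly.dvd κ x h1)
        have e2 : Associated (minpoly κ x) g :=
          (minpoly.irreducible hint).associated_of_dvd hg (minpoly.dvd κ x h2)
        exact hne (natDegree_eq_of_degree_eq
          (degree_eq_degree_of_associated (e1.symm.trans e2)))
      · exact hint (IsAlgebraic.isIntegral ⟨D, hD.ne_zero, h1⟩)
    · rw [if_neg h2, mul_zero]
  · rw [if_neg h1, zero_mul]

end count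

section rep

variable {p : ℕ} [Fact p.Prime] {E : Type} [Field E] [IsAlgClosed E] [CharZero E]

theorem NN_mul {d e : ℕ} (hde : Nat.Coprime d e) (m : ℕ) :
    NN d m * NN e m = NN (d * e) m := by
  unfold NN
  by_cases h1 : d ∣ m
  · by_cases h2 : e ∣ m
    · rw [if_pos h1, if_pos h2, if_pos (hde.mul_dvd_of_dvd_of_dvd h1 h2)]
      push_cast
      rfl
    · rw [if_neg h2, mul_zero, if_neg (fun h => h2 ((Dvd.intro_left d rfl).trans h))]
  · rw [if_neg h1, zero_mul, if_neg (fun h => h1 ((Dvd.intro e rfl).trans h))]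

theorem rep_NN {κ : Type} [Field κ] {q d : ℕ} (hd : 0 < d) (hq : ((q : ℕ) : ZMod p) = 1)
    (r : ℕ) : ∀ (h : Fin r → κ[X]) (f : κ[X]), Irreducible (cmp r h f) →
      Nat.Coprime d (cmp r h f).natDegree →
      ∃ H₁ H₂ : (ZMod p)[X], H₁ ≠ 0 ∧ H₂ ≠ 0 ∧
        Rep p E (fun m => NN d m * cs q r h f m) H₁ H₂ := by
  induction r with
  | zero =>
    intro h f _ _
    refine ⟨1 - X ^ d, 1, one_sub_ne hd, one_ne_zero, ?_⟩
    refine (Rep.roots (p := p) (E := E) hd).congr fun m _ => ?_
    show _ = NN d m * 1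
    rw [mul_one]
    rfl
  | succ r ih =>
    intro h f hirr hcop
    have h1 : Irreducible (cmp r (fun i => h i.succ) f) := by
      rw [cmp_succ] at hirr
      exact irreducible_of_comp hirr
    have hcop1 : Nat.Coprime d (cmp r (fun i => h i.succ) f).natDegree := by
      rw [cmp_succ, natDegree_comp] at hcop
      exact Nat.Coprime.coprime_mul_right_right hcop
    obtain ⟨H₁, H₂, g1, g2, g3⟩ := ih _ _ h1 hcop1
    have h2 := (g3.mul_sub_one hq g1 g2).add
      (Rep.sign (p := p) (E := E) (Nat.mul_pos hd h1.natDegree_pos) (r + 1))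
    refine ⟨_, _, mul_ne_zero one_ne_zero (sg_ne (Nat.mul_pos hd h1.natDegree_pos)),
      mul_ne_zero one_ne_zero (sg_ne (Nat.mul_pos hd h1.natDegree_pos)), h2.congr fun m _ => ?_⟩
    rw [← NN_mul hcop1]
    show _ = NN d m * (((q : ℤ) ^ m - 1) * cs q r (fun i => h i.succ) f m +
      (-1) ^ (r + 1) * NN (cmp r (fun i => h i.succ) f).natDegree m)
    ring

theorem rep_total_D {κ : Type} [Field κ] {q d : ℕ} (hd : 0 < d) (hq : ((q : ℕ) : ZMod p) = 1)
    (r : ℕ) (h : Fin (r + 1) → κ[X]) (f : κ[X]) (hirr : Irreducible (cmp (r + 1) h f))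
    (hcop : Nat.Coprime d (cmp (r + 1) h f).natDegree) :
    Rep p E (fun m => ((q : ℤ) ^ m * cs q (r + 1) h f m +
        (-1) ^ (r + 2) * NN (cmp (r + 1) h f).natDegree m) - NN d m * cs q (r + 1) h f m)
      (sg p (r + 1) (cmp r (fun i => h i.succ) f).natDegree *
        sg p (r + 2) (cmp (r + 1) h f).natDegree *
        sg p (r + 2) (d * (cmp r (fun i => h i.succ) f).natDegree))
      (sg p (r + 2) (cmp r (fun i => h i.succ) f).natDegree *
        sg p (r + 3) (cmp (r + 1) h f).natDegree *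
        sg p (r + 1) (d * (cmp r (fun i => h i.succ) f).natDegree)) := by
  have h1 : Irreducible (cmp r (fun i => h i.succ) f) := by
    rw [cmp_succ] at hirr
    exact irreducible_of_comp hirr
  have hcop1 : Nat.Coprime d (cmp r (fun i => h i.succ) f).natDegree := by
    rw [cmp_succ, natDegree_comp] at hcop
    exact Nat.Coprime.coprime_mul_right_right hcop
  obtain ⟨H₁, H₂, g1, g2, g3⟩ := rep_NN (E := E) hd hq r (fun i => h i.succ) f h1 hcop1
  have h2 := (g3.mul_sub_one hq g1 g2).add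
    (Rep.sign (p := p) (E := E) (Nat.mul_pos hd h1.natDegree_pos) (r + 1))
  rw [one_mul, one_mul] at h2
  have h3 : Rep p E (fun m => NN d m * cs q (r + 1) h f m)
      (sg p (r + 1) (d * (cmp r (fun i => h i.succ) f).natDegree))
      (sg p (r + 2) (d * (cmp r (fun i => h i.succ) f).natDegree)) := by
    refine h2.congr fun m _ => ?_
    rw [← NN_mul hcop1]
    show _ = NN d m * (((q : ℤ) ^ m - 1) * cs q r (fun i => h i.succ) f m +
      (-1) ^ (r + 1) * NN (cmp r (fun i => h i.succ) f).natDegree m)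
    ring
  exact ((rep_total (E := E) hq r h f hirr).add h3.neg).congr fun m _ => by ring

theorem dvd_gcd_pow {g : (ZMod p)[X]} {a b : ℕ} (ha : g ∣ 1 - X ^ a) (hb : g ∣ 1 - X ^ b) :
    g ∣ 1 - X ^ Nat.gcd a b := by
  rw [← Ideal.mem_span_singleton, ← Ideal.Quotient.eq_zero_iff_mem, map_sub, map_pow,
    map_one, sub_eq_zero, eq_comm] at ha hb ⊢
  exact pow_gcd_eq_one.2 ⟨ha, hb⟩

end rep

section mv

variable {κ : Type} [Field κ]

/-- the form with the factor `D(x_0) ^ a` -/
noncomputable def FD {r : ℕ} (h : Fin r → κ[X]) (f D : κ[X]) (b : Fin r → ℕ) (c a : ℕ) :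
    MvPolynomial (Fin (r + 2)) κ :=
  (Polynomial.aeval (MvPolynomial.X (0 : Fin (r + 1)).castSucc :
    MvPolynomial (Fin (r + 2)) κ) D) ^ a * FF h f b c

/-- the value of the function -/
noncomputable def GD {r : ℕ} (L : Type) [Field L] [Algebra κ L] (h : Fin r → κ[X]) (f D : κ[X])
    (b : Fin r → ℕ) (c a : ℕ) (x : Fin (r + 1) → L) : L :=
  (aeval (x 0) D) ^ a * GG L h f b c x

variable {L : Type} [Field L] [Algebra κ L]

theorem eval_FD {r : ℕ} (h : Fin r → κ[X]) (f D : κ[X]) (b : Fin r → ℕ) (c a : ℕ)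
    (x : Fin (r + 1) → L) (w : L) :
    MvPolynomial.eval (Fin.snoc x w : Fin (r + 2) → L) ((FD h f D b c a).map (algebraMap κ L)) =
      w * GD L h f D b c a x := by
  unfold FD GD
  rw [map_mul, map_mul, eval_FF, mul_left_comm, map_pow, map_pow]
  congr 2
  rw [MvPolynomial.eval_map, ← MvPolynomial.aeval_def, ← Polynomial.aeval_algHom_apply,
    MvPolynomial.aeval_X, Fin.snoc_castSucc]

theorem GD_ne {r : ℕ} (h : Fin r → κ[X]) (f D : κ[X]) {b : Fin r → ℕ} {c a : ℕ}
    (hb : ∀ i, b i ≠ 0) (hc : c ≠ 0) (ha : a ≠ 0) (x : Fin (r + 1) → L) :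
    GD L h f D b c a x ≠ 0 ↔ aeval (x 0) D ≠ 0 ∧ IsPt L h f x := by
  unfold GD
  rw [mul_ne_zero_iff, pow_ne_zero_iff ha, GG_ne h f hb hc]

theorem ncard_points_D {r : ℕ} (h : Fin r → κ[X]) (f D : κ[X]) {b : Fin r → ℕ} {c a : ℕ}
    (Q : L → Prop) :
    Set.ncard {v : Fin (r + 2) → L | IsNorm v ∧
      MvPolynomial.eval v ((FD h f D b c a).map (algebraMap κ L)) ≠ 0 ∧
      Q (MvPolynomial.eval v ((FD h f D b c a).map (algebraMap κ L)))} =
    Set.ncard {x : Fin (r + 1) → L | GD L h f D b c a x ≠ 0 ∧ Q (GD L h f D b c a x)} := by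
  have h1 : {v : Fin (r + 2) → L | IsNorm v ∧
      MvPolynomial.eval v ((FD h f D b c a).map (algebraMap κ L)) ≠ 0 ∧
      Q (MvPolynomial.eval v ((FD h f D b c a).map (algebraMap κ L)))} =
      (fun x : Fin (r + 1) → L => (Fin.snoc x 1 : Fin (r + 2) → L)) ''
        {x | GD L h f D b c a x ≠ 0 ∧ Q (GD L h f D b c a x)} := by
    ext v
    constructor
    · rintro ⟨g1, g2, g3⟩
      have e : v = Fin.snoc (Fin.init v) (v (Fin.last (r + 1))) := (Fin.snoc_init_self v).symm
      rw [e] at g1 g2 g3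
      rw [eval_FD] at g2 g3
      have g4 := left_ne_zero_of_mul g2
      have g5 := eq_one_of_isNorm _ _ g4 g1
      rw [g5, one_mul] at g2 g3
      refine ⟨Fin.init v, ⟨g2, g3⟩, ?_⟩
      show (Fin.snoc (Fin.init v) 1 : Fin (r + 2) → L) = v
      rw [← g5]
      exact Fin.snoc_init_self v
    · rintro ⟨x, ⟨g1, g2⟩, rfl⟩
      refine ⟨isNorm_snoc_one x, ?_, ?_⟩
      · show MvPolynomial.eval (Fin.snoc x 1 : Fin (r + 2) → L)
          ((FD h f D b c a).map (algebraMap κ L)) ≠ 0
        rw [eval_FD, one_mul]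
        exact g1
      · show Q (MvPolynomial.eval (Fin.snoc x 1 : Fin (r + 2) → L)
          ((FD h f D b c a).map (algebraMap κ L)))
        rw [eval_FD, one_mul]
        exact g2
  rw [h1, Set.ncard_image_of_injective]
  intro x y hxy
  have := congrArg Fin.init hxy
  simpa only [Fin.init_snoc] using this

open Classical in
theorem ncard_GD [Fintype L] {r : ℕ} (h : Fin r → κ[X]) (f D : κ[X]) {b : Fin r → ℕ} {c a : ℕ}
    (hb : ∀ i, b i ≠ 0) (hc : c ≠ 0) (ha : a ≠ 0) :
    (Set.ncard {x : Fin (r + 1) → L | GD L h f D b c a x ≠ 0} : ℤ) =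
      ∑ x : Fin (r + 1) → L, (1 - delta L D (x 0)) * ind L h f x := by
  rw [Set.ncard_eq_toFinset_card', Finset.card_eq_sum_ones]
  have h1 : ∀ x : Fin (r + 1) → L, (1 - delta L D (x 0)) * ind L h f x =
      if GD L h f D b c a x ≠ 0 then 1 else 0 := by
    intro x
    unfold delta ind
    by_cases h2 : aeval (x 0) D = 0
    · rw [if_pos h2, sub_self, zero_mul, if_neg]
      intro h3
      exact ((GD_ne h f D hb hc ha x).1 h3).1 h2
    · by_cases h4 : IsPt L h f x
      · rw [if_neg h2, if_pos h4, if_pos ((GD_ne h f D hb hc ha x).2 ⟨h2, h4⟩)]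
        ring
      · rw [if_neg h4, mul_zero, if_neg]
        intro h3
        exact h4 ((GD_ne h f D hb hc ha x).1 h3).2
  simp only [h1]
  rw [Finset.sum_ite, Finset.sum_const_zero, add_zero]
  push_cast
  apply Finset.sum_congr _ fun _ _ => rfl
  ext x
  simp

end mv

end Pool.Agent.TH943.SP
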