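import Pool.Agent.TH943.SP.Count

/-!
Frobenius on the cohomology of the open coverings `v ^ (p ^ s) = D(x_0) ^ a f(x_r) ^ c ∏ ...`.
-/

set_option autoImplicit false
set_option maxHeartbeats 1000000

open Polynomial

namespace Pool.Agent.TH943.SP

open Pool.Agent.W528.HS Pool.Agent.W528.HA Pool.Agent.TH117.HS Pool.Agent.TH943.IP

section poly

variable {p : ℕ} [Fact p.Prime]

theorem natDegree_one_sub {e : ℕ} (he : 0 < e) : (1 - X ^ e : (ZMod p)[X]).natDegree = e := by
  have _ := he
  rw [← neg_sub, natDegree_neg, ← C_1, natDegree_X_pow_sub_C]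

theorem squarefree_one_sub {e : ℕ} (he : ¬ p ∣ e) : Squarefree (1 - X ^ e : (ZMod p)[X]) := by
  have h1 : (X ^ e - 1 : (ZMod p)[X]).Separable := by
    rw [X_pow_sub_one_separable_iff, Ne, ZMod.natCast_eq_zero_iff]
    exact he
  rw [← neg_sub]
  exact h1.squarefree.squarefree_of_dvd (neg_dvd.2 dvd_rfl)

theorem exists_S {K m : ℕ} (hK : 0 < K) (hm : 0 < m) (hKm : ¬ p ∣ K * m) :
    ∃ S : (ZMod p)[X], 1 - X ^ (K * m) = (1 - X ^ K) * S ∧ Squarefree S ∧
      IsRelPrime (1 - X ^ K) S ∧ S.natDegree + K = K * m := by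
  obtain ⟨S, hS⟩ : (1 - X ^ K : (ZMod p)[X]) ∣ 1 - X ^ (K * m) := by
    rw [pow_mul]
    have := sub_dvd_pow_sub_pow (1 : (ZMod p)[X]) (X ^ K) m
    rwa [one_pow] at this
  have hsq := squarefree_one_sub hKm
  rw [hS] at hsq
  obtain ⟨h1, -, h2⟩ := squarefree_mul_iff.1 hsq
  refine ⟨S, hS, h2, h1, ?_⟩
  have h3 := congrArg natDegree hS
  rw [natDegree_mul (one_sub_ne hK) h2.ne_zero, natDegree_one_sub hK,
    natDegree_one_sub (Nat.mul_pos hK hm)] at h3
  omega

/-- the polynomial `H` for a nonconstant `D` -/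
theorem exists_H {K m d : ℕ} (hK : 0 < K) (hm : 0 < m) (hd : 0 < d) (hKm : ¬ p ∣ K * m)
    (hdp : ¬ p ∣ d) (hcop : Nat.Coprime m d) :
    ∃ H : (ZMod p)[X], H * (1 - X ^ K) = (1 - X ^ (K * m)) * (1 - X ^ (d * K)) ∧
      Squarefree H ∧ H.natDegree + K = K * m + K * d := by
  have hp : p.Prime := Fact.out
  obtain ⟨S, h1, h2, h3, h4⟩ := exists_S hK hm hKm
  have hKp : ¬ p ∣ K := fun h => hKm (h.mul_right m)
  have hdK : ¬ p ∣ d * K := by
    rw [hp.dvd_mul]
    rintro (h | h)
    · exact hdp h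
    · exact hKp h
  refine ⟨S * (1 - X ^ (d * K)), ?_, ?_, ?_⟩
  · rw [h1]
    ring
  · refine squarefree_mul_iff.2 ⟨?_, h2, squarefree_one_sub hdK⟩
    intro g hg1 hg2
    have h5 : g ∣ 1 - X ^ (K * m) := by
      rw [h1]
      exact hg1.trans (dvd_mul_left _ _)
    have h6 : g ∣ 1 - X ^ Nat.gcd (K * m) (d * K) := dvd_gcd_pow h5 hg2
    have h7 : Nat.gcd (K * m) (d * K) = K := by
      rw [mul_comm d K, Nat.gcd_mul_left, hcop.gcd_eq_one, mul_one]
    rw [h7] at h6
    exact h3 h6 hg1
  · rw [natDegree_mul h2.ne_zero (one_sub_ne (Nat.mul_pos hd hK)),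
      natDegree_one_sub (Nat.mul_pos hd hK), mul_comm d K]
    omega

end poly

/-- all the input for the general theorem -/
theorem inputs {p s : ℕ} (hp : p.Prime) (hs : 1 ≤ s) (κ : Type) [Field κ] [Fintype κ] {z : κ}
    (hz : IsPrimitiveRoot z (p ^ s)) {r : ℕ} (h : Fin (r + 1) → κ[X]) (f D : κ[X])
    {b : Fin (r + 1) → ℕ} {c a : ℕ} (hb : ∀ i, b i ≠ 0) (hc : c ≠ 0) (ha : a ≠ 0)
    (hirr : Irreducible (cmp (r + 1) h f)) (hdeg : ¬ p ∣ (cmp (r + 1) h f).natDegree)
    (hdeg2 : 2 ≤ (cmp (r + 1) h f).natDegree)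
    (hD : (∃ u : κ, u ≠ 0 ∧ D = C u) ∨ (Irreducible D ∧ ¬ p ∣ D.natDegree ∧
      Nat.Coprime D.natDegree (cmp (r + 1) h f).natDegree))
    (E : Type) [Field E] [CharZero E] [IsAlgClosed E] :
    ∃ (P₁ P₂ : ℤ[X]) (B₁ B₂ : Multiset E) (H : (ZMod p)[X]), P₁.coeff 0 = 1 ∧ P₂.coeff 0 = 1 ∧
      P₁.map (Int.castRingHom E) = (B₁.map fun x => 1 - C x * X).prod ∧
      P₂.map (Int.castRingHom E) = (B₂.map fun x => 1 - C x * X).prod ∧
      (∀ (L : Type) [Field L] [Fintype L] [Algebra κ L],
        (projOpen L ((FD h f D b c a).map (algebraMap κ L)) : E) =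
          (B₁.map fun x => x ^ Module.finrank κ L).sum -
            (B₂.map fun x => x ^ Module.finrank κ L).sum) ∧
      Squarefree H ∧
      H.natDegree + (cmp r (fun i => h i.succ) f).natDegree = (cmp (r + 1) h f).natDegree +
        (cmp r (fun i => h i.succ) f).natDegree * D.natDegree ∧
      (Even (r + 2) → H * P₂.map (Int.castRingHom (ZMod p)) =
        P₁.map (Int.castRingHom (ZMod p))) ∧
      (Odd (r + 2) → H * P₁.map (Int.castRingHom (ZMod p)) =
        P₂.map (Int.castRingHom (ZMod p))) := by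
  have hfact : Fact p.Prime := ⟨hp⟩
  have hq : ((Fintype.card κ : ℕ) : ZMod p) = 1 := card_eq_one hp hs hz (ZMod p)
  have hirr1 : Irreducible (cmp r (fun i => h i.succ) f) := by
    rw [cmp_succ] at hirr
    exact irreducible_of_comp hirr
  have hopen : ∀ (L : Type) [Field L] [Fintype L] [Algebra κ L],
      projOpen L ((FD h f D b c a).map (algebraMap κ L)) =
        Set.ncard {x : Fin (r + 2) → L | GD L h f D b c a x ≠ 0} := by
    intro L _ _ _
    have := ncard_points_D (L := L) h f D (b := b) (c := c) (a := a) (fun _ => True)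
    simp only [and_true] at this
    exact this
  set K := (cmp r (fun i => h i.succ) f).natDegree with hK
  have hKpos : 0 < K := hirr1.natDegree_pos
  have hKm : (cmp (r + 1) h f).natDegree = K * (h 0).natDegree := by
    rw [cmp_succ, natDegree_comp]
  set m := (h 0).natDegree with hm
  have hmpos : 0 < m := by
    rcases Nat.eq_zero_or_pos m with h0 | h0
    · rw [hKm, h0, mul_zero] at hdeg
      exact absurd (dvd_zero p) hdeg
    · exact h0
  have hcardL : ∀ (L : Type) [Field L] [Fintype L] [Algebra κ L],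
      (Fintype.card L : ℤ) = (Fintype.card κ : ℤ) ^ Module.finrank κ L := by
    intro L _ _ _
    rw [Module.card_eq_pow_finrank (K := κ) (V := L)]
    push_cast
    rfl
  rcases hD with ⟨u, hu, rfl⟩ | ⟨hD1, hD2, hD3⟩
  · -- constant `D`
    obtain ⟨P₁, P₂, B₁, B₂, h1, h2, h3, h4, h5, h6⟩ := rep_total (E := E) hq r h f hirr
    rw [hKm] at hdeg
    obtain ⟨S, g1, g2, g3, g4⟩ := exists_S hKpos hmpos hdeg
    refine ⟨P₁, P₂, B₁, B₂, S, h1, h2, h3, h4, ?_, g2, ?_, ?_, ?_⟩
    · intro L _ _ _
      have : FiniteDimensional κ L := Module.Finite.of_finite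
      have h7 : (projOpen L ((FD h f (C u) b c a).map (algebraMap κ L)) : ℤ) =
          (Fintype.card κ : ℤ) ^ Module.finrank κ L *
            cs (Fintype.card κ) (r + 1) h f (Module.finrank κ L) +
          (-1) ^ (r + 2) * NN (cmp (r + 1) h f).natDegree (Module.finrank κ L) := by
        rw [hopen L, ncard_GD h f (C u) hb hc ha, total_D]
        · rw [cc_eq L _ h f hirr, sum_delta L hirr, hcardL L]
          have h8 : ∑ x : L, delta L (C u : κ[X]) x = 0 :=
            Finset.sum_eq_zero fun x _ => delta_const L hu x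
          rw [h8, zero_mul, sub_zero]
        · intro x
          rw [delta_const L hu, zero_mul]
      rw [← Int.cast_natCast, h7]
      exact h5 _ Module.finrank_pos
    · rw [hKm, natDegree_C, mul_zero, add_zero]
      exact g4
    · intro hev
      rw [← hK, hKm] at h6
      have hr : Even r := by
        rw [Nat.even_add] at hev
        exact hev.2 even_two
      have e1 : ¬ Even (r + 1) := by rw [Nat.even_add_one]; exact not_not.2 hr
      have e2 : Even (r + 2) := hev
      have e3 : ¬ Even (r + 3) := by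
        rw [show r + 3 = r + 2 + 1 from rfl, Nat.even_add_one]; exact not_not.2 hev
      unfold sg at h6
      rw [if_neg e1, if_pos e2, if_pos e2, if_neg e3, one_mul, mul_one, g1] at h6
      apply mul_right_cancel₀ (one_sub_ne hKpos)
      rw [h6]
      ring
    · intro hodd
      rw [← hK, hKm] at h6
      have hr : Odd r := by
        rw [Nat.odd_add] at hodd
        exact hodd.2 even_two
      have e1 : Even (r + 1) := hr.add_one
      have e2 : ¬ Even (r + 2) := Nat.not_even_iff_odd.2 hodd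
      have e3 : Even (r + 3) := hodd.add_one
      unfold sg at h6
      rw [if_pos e1, if_neg e2, if_neg e2, if_pos e3, one_mul, mul_one, g1] at h6
      apply mul_right_cancel₀ (one_sub_ne hKpos)
      rw [← h6]
      ring
  · -- irreducible `D`
    have hd : 0 < D.natDegree := hD1.natDegree_pos
    obtain ⟨P₁, P₂, B₁, B₂, h1, h2, h3, h4, h5, h6⟩ := rep_total_D (E := E) hd hq r h f hirr hD3
    have hne : D.natDegree ≠ (cmp (r + 1) h f).natDegree := by
      intro h0
      rw [h0, Nat.coprime_self] at hD3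
      omega
    rw [hKm] at hdeg hD3
    have hcop : Nat.Coprime m D.natDegree :=
      (Nat.Coprime.coprime_mul_left_right hD3).symm
    obtain ⟨H, g1, g2, g3⟩ := exists_H hKpos hmpos hd hdeg hD2 hcop
    refine ⟨P₁, P₂, B₁, B₂, H, h1, h2, h3, h4, ?_, g2, ?_, ?_, ?_⟩
    · intro L _ _ _
      have : FiniteDimensional κ L := Module.Finite.of_finite
      have h7 : (projOpen L ((FD h f D b c a).map (algebraMap κ L)) : ℤ) =
          ((Fintype.card κ : ℤ) ^ Module.finrank κ L *
            cs (Fintype.card κ) (r + 1) h f (Module.finrank κ L) +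
          (-1) ^ (r + 2) * NN (cmp (r + 1) h f).natDegree (Module.finrank κ L)) -
          NN D.natDegree (Module.finrank κ L) *
            cs (Fintype.card κ) (r + 1) h f (Module.finrank κ L) := by
        rw [hopen L, ncard_GD h f D hb hc ha, total_D]
        · rw [cc_eq L _ h f hirr, sum_delta L hirr, sum_delta L hD1, hcardL L]
        · exact fun x => delta_mul L hD1 hirr hne x
      rw [← Int.cast_natCast, h7]
      exact h5 _ Module.finrank_pos
    · rw [hKm]
      exact g3
    · intro hev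
      rw [← hK, hKm] at h6
      have hr : Even r := by
        rw [Nat.even_add] at hev
        exact hev.2 even_two
      have e1 : ¬ Even (r + 1) := by rw [Nat.even_add_one]; exact not_not.2 hr
      have e2 : Even (r + 2) := hev
      have e3 : ¬ Even (r + 3) := by
        rw [show r + 3 = r + 2 + 1 from rfl, Nat.even_add_one]; exact not_not.2 hev
      unfold sg at h6
      rw [if_neg e1, if_pos e2, if_pos e2, if_pos e2, if_neg e3, if_neg e1, one_mul, mul_one,
        mul_one] at h6
      apply mul_right_cancel₀ (one_sub_ne hKpos)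
      rw [h6, mul_right_comm, g1]
      ring
    · intro hodd
      rw [← hK, hKm] at h6
      have hr : Odd r := by
        rw [Nat.odd_add] at hodd
        exact hodd.2 even_two
      have e1 : Even (r + 1) := hr.add_one
      have e2 : ¬ Even (r + 2) := Nat.not_even_iff_odd.2 hodd
      have e3 : Even (r + 3) := hodd.add_one
      unfold sg at h6
      rw [if_pos e1, if_neg e2, if_neg e2, if_neg e2, if_pos e3, if_pos e1, one_mul, mul_one,
        mul_one] at h6
      apply mul_right_cancel₀ (one_sub_ne hKpos)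
      rw [← h6, mul_right_comm, g1]
      ring

/-- the theorem for the open coverings -/
theorem open_main {p s : ℕ} (hp : p.Prime) (hs : 1 ≤ s) (κ : Type) [Field κ] [Fintype κ] {z : κ}
    (hz : IsPrimitiveRoot z (p ^ s)) {r : ℕ} (h : Fin (r + 1) → κ[X]) (f D : κ[X])
    {b : Fin (r + 1) → ℕ} {c a : ℕ} (hb : ∀ i, b i ≠ 0) (hc : c ≠ 0) (ha : a ≠ 0)
    (hirr : Irreducible (cmp (r + 1) h f)) (hdeg : ¬ p ∣ (cmp (r + 1) h f).natDegree)
    (hdeg2 : 2 ≤ (cmp (r + 1) h f).natDegree)
    (hD : (∃ u : κ, u ≠ 0 ∧ D = C u) ∨ (Irreducible D ∧ ¬ p ∣ D.natDegree ∧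
      Nat.Coprime D.natDegree (cmp (r + 1) h f).natDegree))
    {E : Type} [Field E] [CharZero E] [IsAlgClosed E]
    {V : Type} [AddCommGroup V] [Module E V] [FiniteDimensional E V] (Φ g : Module.End E V)
    (hcomm : Commute Φ g) (hg : g ^ p ^ s = 1) (hinv : ∀ v, g v = v → v = 0)
    (hfix : ∀ (L : Type) [Field L] [Fintype L] [Algebra κ L] (i : ℕ),
      (-1) ^ (r + 2) * LinearMap.trace E V (Φ ^ Module.finrank κ L * g ^ i) =
        (p : E) ^ s * (Set.ncard {x : Fin (r + 2) → L | GD L h f D b c a x ≠ 0 ∧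
            (GD L h f D b c a x) ^ ((Fintype.card L - 1) / p ^ s) = algebraMap κ L z ^ i} : E) -
          (Set.ncard {x : Fin (r + 2) → L | GD L h f D b c a x ≠ 0} : E))
    (hdim : ∀ ω : E, ω ≠ 1 → ω ^ p ^ s = 1 → Module.finrank E (g.eigenspace ω) +
      (cmp r (fun i => h i.succ) f).natDegree = (cmp (r + 1) h f).natDegree +
        (cmp r (fun i => h i.succ) f).natDegree * D.natDegree) :
    Φ.IsSemisimple := by
  obtain ⟨P₁, P₂, B₁, B₂, H, h1, h2, h3, h4, h5, h6, h7, h8, h9⟩ :=
    inputs hp hs κ hz h f D hb hc ha hirr hdeg hdeg2 hD E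
  refine open_whole hp κ hz (n := r + 2) (FD h f D b c a) P₁ P₂ h1 h2 B₁ B₂ h3 h4 h5 Φ g
    hcomm hg hinv ?_ H h6 ?_ h8 h9
  · intro L _ _ _ i
    refine (hfix L i).trans ?_
    have e1 : projFix L (p ^ s) ((FD h f D b c a).map (algebraMap κ L)) (algebraMap κ L z) i =
        Set.ncard {x : Fin (r + 2) → L | GD L h f D b c a x ≠ 0 ∧
            (GD L h f D b c a x) ^ ((Fintype.card L - 1) / p ^ s) = algebraMap κ L z ^ i} :=
      ncard_points_D h f D (fun y => y ^ ((Fintype.card L - 1) / p ^ s) = algebraMap κ L z ^ i)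
    have e2 : projOpen L ((FD h f D b c a).map (algebraMap κ L)) =
        Set.ncard {x : Fin (r + 2) → L | GD L h f D b c a x ≠ 0} := by
      have := ncard_points_D (L := L) h f D (b := b) (c := c) (a := a) (fun _ => True)
      simp only [and_true] at this
      exact this
    rw [e1, e2]
  · intro ω hω1 hω
    have := hdim ω hω1 hω
    omega

end Pool.Agent.TH943.SP
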