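import Pool.Agent.TH943.IP.Whole
import Pool.Agent.TH943.SF.Sq

/-!
Frobenius on the cohomology with compact supports of open cyclic coverings: the part of the
nontrivial characters; and surfaces.
-/

set_option autoImplicit false
set_option maxHeartbeats 1000000

open Finset Polynomial

namespace Pool.Agent.TH943.SP

open Pool.Agent.W528.HS Pool.Agent.W528.HA Pool.Agent.TH117.HS Pool.Agent.TH943.IP

/-- The cohomology with compact supports of an open cyclic covering. -/
theorem open_whole {p s : ℕ} (hp : p.Prime) (κ : Type) [Field κ] [Fintype κ] {z : κ}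
    (hz : IsPrimitiveRoot z (p ^ s)) {n : ℕ}
    (F : MvPolynomial (Fin (n + 1)) κ) {E : Type} [Field E] [CharZero E] [IsAlgClosed E]
    (P₁ P₂ : ℤ[X]) (hP₁ : P₁.coeff 0 = 1)
    (hP₂ : P₂.coeff 0 = 1) (B₁ B₂ : Multiset E)
    (hB₁ : P₁.map (Int.castRingHom E) = (B₁.map fun x => 1 - C x * X).prod)
    (hB₂ : P₂.map (Int.castRingHom E) = (B₂.map fun x => 1 - C x * X).prod)
    (hU : ∀ (L : Type) [Field L] [Fintype L] [Algebra κ L],
      (projOpen L (F.map (algebraMap κ L)) : E)
        = (B₁.map fun x => x ^ Module.finrank κ L).sum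
          - (B₂.map fun x => x ^ Module.finrank κ L).sum)
    {V : Type} [AddCommGroup V] [Module E V] [FiniteDimensional E V] (Φ g : Module.End E V)
    (hc : Commute Φ g) (hg : g ^ p ^ s = 1)
    (hinv : ∀ v, g v = v → v = 0)
    (hfix : ∀ (L : Type) [Field L] [Fintype L] [Algebra κ L] (i : ℕ),
      (-1) ^ n * LinearMap.trace E V (Φ ^ Module.finrank κ L * g ^ i) =
          (p : E) ^ s * projFix L (p ^ s) (F.map (algebraMap κ L)) (algebraMap κ L z) i -
            (projOpen L (F.map (algebraMap κ L)) : E))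
    (H : (ZMod p)[X]) (hH : Squarefree H)
    (hdim : ∀ ω : E, ω ≠ 1 → ω ^ p ^ s = 1 → H.natDegree = Module.finrank E (g.eigenspace ω))
    (hev : Even n → H * P₂.map (Int.castRingHom (ZMod p)) = P₁.map (Int.castRingHom (ZMod p)))
    (hodd : Odd n → H * P₁.map (Int.castRingHom (ZMod p)) = P₂.map (Int.castRingHom (ZMod p))) :
    Φ.IsSemisimple := by
  classical
  have hN : 0 < p ^ s := pow_pos hp.pos s
  refine semisimple_glue hc hN hg fun ω hω => ?_
  by_cases hω1 : ω = 1
  · subst hω1
    have h1 : Φ.restrict (mapsTo_eig hc (1 : E)) =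
        algebraMap E (Module.End E (g.eigenspace (1 : E))) 0 := by
      ext v
      have h2 : g v.1 = v.1 := by
        have := Module.End.mem_eigenspace_iff.1 v.2
        rwa [one_smul] at this
      have h3 : v = 0 := Subtype.ext (hinv v.1 h2)
      rw [h3, map_zero, map_zero]
    rw [h1]
    refine semisimple_of_iSup _ ?_
    rw [eq_top_iff]
    refine le_trans ?_ (le_iSup _ (0 : E))
    intro v _
    rw [Module.End.mem_eigenspace_iff, Module.algebraMap_end_apply]
  · have hω' : (ω⁻¹) ^ p ^ s = 1 := by rw [inv_pow, hω, inv_one]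
    have hω1' : ω⁻¹ ≠ 1 := fun h => hω1 (inv_eq_one.1 h)
    refine (char_gen hp κ hz F P₁ P₂ hP₁ hP₂ B₁ B₂ hB₁ hB₂ hU hω1' hω'
      (Φ.restrict (mapsTo_eig hc ω)) ?_ H hH (hdim ω hω1 hω) hev hodd).2
    intro L _ _ _
    have hzL : IsPrimitiveRoot (algebraMap κ L z) (p ^ s) :=
      hz.map_of_injective (algebraMap κ L).injective
    have h1 := trace_eig hc hN hg hω (Module.finrank κ L)
    have h0 : ∑ i ∈ range (p ^ s), (ω⁻¹) ^ i = 0 := by
      have h2 := mul_geom_sum (ω⁻¹) (p ^ s)
      rw [hω', sub_self] at h2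
      exact (mul_eq_zero.1 h2).resolve_left (sub_ne_zero.2 hω1')
    have hps : ((p ^ s : ℕ) : E) ≠ 0 := by exact_mod_cast hN.ne'
    apply mul_left_cancel₀ hps
    calc ((p ^ s : ℕ) : E) * ((-1) ^ n *
          LinearMap.trace E _ ((Φ.restrict (mapsTo_eig hc ω)) ^ Module.finrank κ L))
        = ∑ i ∈ range (p ^ s), (ω⁻¹) ^ i * ((-1) ^ n *
            LinearMap.trace E V (Φ ^ Module.finrank κ L * g ^ i)) := by
          rw [mul_left_comm, h1, Finset.mul_sum]
          exact Finset.sum_congr rfl fun i _ => by ring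
      _ = ∑ i ∈ range (p ^ s), ((ω⁻¹) ^ i * (-(projOpen L (F.map (algebraMap κ L)) : E)) +
          (p : E) ^ s * ((ω⁻¹) ^ i *
            projFix L (p ^ s) (F.map (algebraMap κ L)) (algebraMap κ L z) i)) :=
          Finset.sum_congr rfl fun i _ => by rw [hfix]; ring
      _ = _ := by
          rw [Finset.sum_add_distrib, ← Finset.sum_mul, h0, zero_mul, zero_add, ← Finset.mul_sum,
            sum_projFix hN _ hzL hω']
          push_cast
          ring

/-- semisimplicity of a quotient plus a part of finite order -/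
theorem semisimple_image {E : Type} [Field E] [CharZero E] {M V : Type} [AddCommGroup M]
    [Module E M] [FiniteDimensional E M] [AddCommGroup V] [Module E V] (ΦM : Module.End E M)
    (Φ : Module.End E V) (π : M →ₗ[E] V) (hπ : ∀ x, π (ΦM x) = Φ (π x)) (hM : ΦM.IsSemisimple)
    (N : Submodule E V) (hN : LinearMap.range π ⊔ N = ⊤) {r : ℕ} (hr : 0 < r) {c : E}
    (hc : c ≠ 0) (hfin : ∀ v ∈ N, (Φ ^ r) v = c • v) : Φ.IsSemisimple := by
  have h1 : Squarefree (minpoly E ΦM) := hM.minpoly_squarefree
  refine Pool.Agent.TH943.SF.semisimple_sum Φ h1 (LinearMap.range π) N hN ?_ hr hc hfin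
  rintro _ ⟨x, rfl⟩
  have h2 : ∀ (P : E[X]) (y : M), aeval Φ P (π y) = π (aeval ΦM P y) := by
    intro P y
    induction P using Polynomial.induction_on' with
    | add a b ha hb => rw [map_add, map_add, LinearMap.add_apply, LinearMap.add_apply,
        map_add, ha, hb]
    | monomial j a =>
      rw [aeval_monomial, aeval_monomial, Module.End.mul_apply, Module.End.mul_apply,
        Module.algebraMap_end_apply, Module.algebraMap_end_apply, map_smul]
      congr 1
      induction j with
      | zero => rfl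
      | succ j ih =>
        rw [pow_succ', pow_succ', Module.End.mul_apply, Module.End.mul_apply, hπ, ih]
  rw [h2, minpoly.aeval, LinearMap.zero_apply, map_zero]

end Pool.Agent.TH943.SP
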